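import Pool.Agent.H92Berg.Final

set_option autoImplicit false
open MeasureTheory Polynomial

namespace Pool.Agent.Results.MP_b1555f_an.RealInterlacingZeros

/-- The open regular `N`-gon whose vertices are the `N`-th roots of unity. -/
def Ngon (N : ℕ) : Set ℂ := interior (convexHull ℝ {z : ℂ | z ^ N = 1})

/-- The Bergman inner product of two polynomials over the open `N`-gon
(integration with respect to planar Lebesgue measure). -/
noncomputable def bergmanInner (N : ℕ) (p q : ℂ[X]) : ℂ :=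
  ∫ z in Ngon N, p.eval z * starRingEnd ℂ (q.eval z)

/-- `p` is the Gram-Schmidt sequence of `1, z, z^2, ...` for the Bergman inner product of the
`N`-gon: `deg p_m = m`, the leading coefficients are positive reals, and the `p_m` are
orthonormal. -/
structure IsBergmanOP (N : ℕ) (p : ℕ → ℂ[X]) : Prop where
  natDegree_eq : ∀ m, (p m).natDegree = m
  leading_pos : ∀ m, ∃ c : ℝ, 0 < c ∧ (p m).leadingCoeff = c
  orthonormal : ∀ m n, bergmanInner N (p m) (p n) = if m = n then 1 else 0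

theorem isBergmanOP_iff (N : ℕ) (p : ℕ → ℂ[X]) :
    IsBergmanOP N p ↔ Pool.Agent.H92Berg.IsBergmanOP N p :=
  ⟨fun h => ⟨h.1, h.2, h.3⟩, fun h => ⟨h.1, h.2, h.3⟩⟩

/-- Question Q1 in full. -/
theorem result (N : ℕ) (hN : N = 3 ∨ N = 4) :
    (∃! p : ℕ → ℂ[X], IsBergmanOP N p) ∧
    ∀ p : ℕ → ℂ[X], IsBergmanOP N p → ∀ k < N, ∃ (q : ℕ → ℝ[X]) (t : ℕ → ℕ → ℝ),
      (∀ j, p (j * N + k) = X ^ k * ((q j).map (algebraMap ℝ ℂ)).comp (X ^ N) ∧
        (q j).natDegree = j ∧ (q j).roots = (Multiset.range j).map (t j)) ∧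
      (∀ j ν, ν < j → 0 < t j ν ∧ t j ν < 1) ∧
      (∀ j ν, 1 ≤ j → ν < j → 0 < t (j + 1) ν ∧ t (j + 1) ν < t j ν ∧
        t j ν < t (j + 1) (ν + 1) ∧ t (j + 1) (ν + 1) < 1) := by
  have h := Pool.Agent.H92Berg.final N hN
  simp only [isBergmanOP_iff]
  exact h

end Pool.Agent.Results.MP_b1555f_an.RealInterlacingZeros
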